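import Pool.Agent.H.MP_467fc0_an.D

set_option autoImplicit false
open MeasureTheory Filter Topology

namespace Pool.Agent.Results.MP_467fc0_an.Yes
open Pool.Agent.H.MP_467fc0_an

theorem result (d : ℕ) (hd : 1 ≤ d) (P : Fin (d + 1) → Polynomial ℤ)
    (h1 : ∀ i, 0 < (P i).natDegree) (h2 : ∀ i j, i ≠ j → 0 < (P i - P j).natDegree)
    (D : ℕ) (A : Matrix (Fin D) (Fin D) ℤ) (b : Tor D) (T : Equiv.Perm (Tor D))
    (hA : IsNilpotent (A - 1)) (hT : ∀ x, T x = fun i => (∑ j, A i j • x j) + b i)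
    (f : Fin (d + 1) → Tor D → ℂ) (hf : ∀ i, MemLp (f i) ⊤ (haar D)) :
    ((∃ i, hk T d (f i) = 0) →
      Tendsto (fun N => eLpNorm (avg T P f N) 2 (haar D)) atTop (𝓝 0)) ∧
    ∀ Z : MeasurableSpace (Tor D), Z ≤ MeasurableSpace.pi →
      (∀ g : Tor D → ℂ, MemLp g ⊤ (haar D) →
        (condExp Z (haar D) g =ᵐ[haar D] 0 ↔ hk T d g = 0)) →
      Tendsto (fun N => eLpNorm (avg T P f N - avg T P (fun i => condExp Z (haar D) (f i)) N) 2
        (haar D)) atTop (𝓝 0) := by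
  obtain ⟨S, rfl⟩ := exists_sys A b T hA hT
  obtain ⟨d, rfl⟩ := Nat.exists_eq_add_of_le' hd
  refine ⟨fun ⟨i, hi⟩ => S.main P h1 h2 f hf i hi, fun Z hZ h => ?_⟩
  refine S.tele P f _ hf (fun i => (hf i).condExp le_top) fun u hu j e =>
    S.main P h1 h2 u hu j ((h _ (hu j)).mp ?_)
  rw [e]
  refine (condExp_sub ((hf j).integrable le_top) integrable_condExp Z).trans ?_
  filter_upwards [condExp_condExp_of_le (f := f j) (μ := haar D) le_rfl hZ] with x hx
  simp [hx]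

end Pool.Agent.Results.MP_467fc0_an.Yes
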